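import Mathlib

/-!
Abstract part of the construction of a maximally monotone operator whose domain has a non-convex
closure.

`X0` is a Banach space, `E` a Hilbert space, `T : X0 → E`, `S` a vector space with linear maps
`V : S → X0`, `L : S → X0*`, `P : S → E` such that `L s (V s') + L s' (V s) = 2 ⟪P s, P s'⟫`,
and `Xi` is a skew operator on `E`.
-/

set_option autoImplicit false

open Filter Topology
open scoped RealInnerProductSpace

namespace Pool.Agent.Helper15_MM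

section

variable {X0 E S : Type*} [NormedAddCommGroup X0] [NormedSpace ℝ X0]
  [NormedAddCommGroup E] [InnerProductSpace ℝ E] [AddCommGroup S] [Module ℝ S]

/-- the functional sending the pair u, t to b u + β t -/
noncomputable def fn (b : X0 →L[ℝ] ℝ) (β : ℝ) : (X0 × ℝ) →L[ℝ] ℝ :=
  b.coprod (β • ContinuousLinearMap.id ℝ ℝ)

@[simp] lemma fn_apply (b : X0 →L[ℝ] ℝ) (β : ℝ) (u : X0) (t : ℝ) :
    fn b β (u, t) = b u + β * t := by
  simp [fn]

lemma exists_fn (ξ : (X0 × ℝ) →L[ℝ] ℝ) : ∃ b β, ξ = fn b β := by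
  refine ⟨ξ.comp (ContinuousLinearMap.inl ℝ X0 ℝ), ξ (0, 1), ?_⟩
  refine ContinuousLinearMap.ext fun p => ?_
  obtain ⟨u, t⟩ := p
  have h : ((u, t) : X0 × ℝ) = (u, 0) + t • ((0, 1) : X0 × ℝ) := by simp
  rw [fn_apply, h, map_add, map_smul]
  simp [mul_comm]

variable (T : X0 →L[ℝ] E) (V : S →ₗ[ℝ] X0) (L : S →ₗ[ℝ] (X0 →L[ℝ] ℝ)) (P : S →ₗ[ℝ] E)
  (Xi : E →L[ℝ] E)

/-- `W = 1 + Xi` -/
noncomputable def Wop (Xi : E →L[ℝ] E) (a : E) : E := a + Xi a

/-- points at level `-1` -/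
noncomputable def negPt (s : S) : (X0 × ℝ) × ((X0 × ℝ) →L[ℝ] ℝ) :=
  ((V s, -1), fn (-(L s)) (-(1 / 4) * ‖Wop Xi (T (V s))‖ ^ 2))

/-- points at level `1` -/
noncomputable def posPt (s : S) : (X0 × ℝ) × ((X0 × ℝ) →L[ℝ] ℝ) :=
  ((V s, 1), fn (-(L s) + (innerSL ℝ (T (V s) - Xi (T (V s)))).comp T)
    (1 / 4 * ‖T (V s)‖ ^ 2))

/-- the monotone set -/
def MM : Set ((X0 × ℝ) × ((X0 × ℝ) →L[ℝ] ℝ)) :=
  {p | ∃ s, P s = 0 ∧ p = negPt T V L Xi s} ∪ {p | ∃ s, P s = T (V s) ∧ p = posPt T V L Xi s}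

/-- monotone sets -/
def Mono {Y : Type*} [NormedAddCommGroup Y] [NormedSpace ℝ Y] (M : Set (Y × (Y →L[ℝ] ℝ))) :
    Prop :=
  ∀ p ∈ M, ∀ q ∈ M, 0 ≤ (p.2 - q.2) (p.1 - q.1)

variable {T V L P Xi}

lemma L_self (hL : ∀ s s', L s (V s') + L s' (V s) = 2 * ⟪P s, P s'⟫) (s : S) :
    L s (V s) = ‖P s‖ ^ 2 := by
  have := hL s s
  rw [real_inner_self_eq_norm_sq] at this
  linarith

lemma skew_self (hXi : ∀ a b, ⟪Xi a, b⟫ = -⟪a, Xi b⟫) (a : E) : ⟪a, Xi a⟫ = 0 := by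
  have := hXi a a
  rw [real_inner_comm] at this
  linarith

lemma mono_MM (hL : ∀ s s', L s (V s') + L s' (V s) = 2 * ⟪P s, P s'⟫)
    (hXi : ∀ a b, ⟪Xi a, b⟫ = -⟪a, Xi b⟫) : Mono (MM T V L P Xi) := by
  -- cross term
  have cross : ∀ s s', P s = T (V s) → P s' = 0 →
      (fn (-(L s) + (innerSL ℝ (T (V s) - Xi (T (V s)))).comp T) (1 / 4 * ‖T (V s)‖ ^ 2)
        - fn (-(L s')) (-(1 / 4) * ‖Wop Xi (T (V s'))‖ ^ 2)) ((V s, (1 : ℝ)) - (V s', (-1 : ℝ)))
      = 1 / 2 * ‖T (V s) - Wop Xi (T (V s'))‖ ^ 2 := by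
    intro s s' hs hs'
    have h1 := hL s s'
    have h2 := L_self hL s
    have h3 := L_self hL s'
    rw [hs', norm_zero] at h3
    rw [hs', inner_zero_right] at h1
    rw [hs] at h2
    have h4 : ‖T (V s) - Wop Xi (T (V s'))‖ ^ 2
        = ‖T (V s)‖ ^ 2 + ‖Wop Xi (T (V s'))‖ ^ 2 - 2 * ⟪T (V s), Wop Xi (T (V s'))⟫ := by
      rw [norm_sub_sq_real]; ring
    have h5 : ⟪T (V s), Wop Xi (T (V s'))⟫
        = ⟪T (V s), T (V s')⟫ - ⟪Xi (T (V s)), T (V s')⟫ := by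
      rw [Wop, inner_add_right, hXi]; ring
    have h6 : ⟪Xi (T (V s)), T (V s)⟫ = 0 := by
      rw [real_inner_comm]; exact skew_self hXi _
    rw [h4, h5]
    simp only [Prod.mk_sub_mk, ContinuousLinearMap.sub_apply, fn_apply, map_sub,
      ContinuousLinearMap.add_apply, ContinuousLinearMap.neg_apply, ContinuousLinearMap.comp_apply,
      innerSL_apply_apply, inner_sub_left, real_inner_self_eq_norm_sq, h6]
    nlinarith [h1, h2, h3]
  intro p hp q hq
  rcases hp with ⟨s, hs, rfl⟩ | ⟨s, hs, rfl⟩ <;> rcases hq with ⟨s', hs', rfl⟩ | ⟨s', hs', rfl⟩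
  · have h := L_self hL (s - s')
    rw [map_sub P, hs, hs', sub_zero, norm_zero, map_sub V, map_sub L] at h
    have h' : L s (V s - V s') - L s' (V s - V s') = 0 := by
      simpa using h
    simp only [negPt, Prod.mk_sub_mk, ContinuousLinearMap.sub_apply, fn_apply, sub_self, mul_zero,
      add_zero, ContinuousLinearMap.neg_apply]
    linarith
  · have h := cross s' s hs' hs
    have h2 : ((negPt T V L Xi s).2 - (posPt T V L Xi s').2)
        ((negPt T V L Xi s).1 - (posPt T V L Xi s').1)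
        = ((posPt T V L Xi s').2 - (negPt T V L Xi s).2)
        ((posPt T V L Xi s').1 - (negPt T V L Xi s).1) := by
      rw [← neg_sub ((posPt T V L Xi s').2), ← neg_sub ((posPt T V L Xi s').1),
        ContinuousLinearMap.neg_apply, map_neg, neg_neg]
    rw [h2]
    exact le_of_le_of_eq (by positivity) h.symm
  · exact le_of_le_of_eq (by positivity) (cross s s' hs hs').symm
  · have h := L_self hL (s - s')
    have hT : P (s - s') = T (V (s - s')) := by
      rw [map_sub, hs, hs', map_sub, map_sub]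
    rw [hT, map_sub V] at h
    have h' : L s (V s - V s') - L s' (V s - V s') = ‖T (V s - V s')‖ ^ 2 := by
      rw [← h, map_sub L]
      rfl
    have h3 : ⟪Xi (T (V s - V s')), T (V s - V s')⟫ = 0 := by
      rw [real_inner_comm]; exact skew_self hXi _
    have h4 : ⟪T (V s) - Xi (T (V s)), T (V s - V s')⟫
        - ⟪T (V s') - Xi (T (V s')), T (V s - V s')⟫ = ‖T (V s - V s')‖ ^ 2 := by
      rw [← inner_sub_left, ← real_inner_self_eq_norm_sq]
      have : T (V s) - Xi (T (V s)) - (T (V s') - Xi (T (V s')))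
          = T (V s - V s') - Xi (T (V s - V s')) := by
        simp only [map_sub]; abel
      rw [this, inner_sub_left, h3, sub_zero]
    simp only [posPt, Prod.mk_sub_mk, ContinuousLinearMap.sub_apply, fn_apply, sub_self, mul_zero,
      add_zero, ContinuousLinearMap.neg_apply, ContinuousLinearMap.add_apply,
      ContinuousLinearMap.comp_apply, innerSL_apply_apply]
    linarith

lemma related_neg (hL : ∀ s s', L s (V s') + L s' (V s) = 2 * ⟪P s, P s'⟫)
    {u : X0} {t : ℝ} {b : X0 →L[ℝ] ℝ} {β : ℝ}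
    (h : ∀ p ∈ MM T V L P Xi, 0 ≤ (fn b β - p.2) ((u, t) - p.1)) (s : S) (hs : P s = 0) :
    0 ≤ b u - b (V s) + L s u + (1 + t) * (β + 1 / 4 * ‖Wop Xi (T (V s))‖ ^ 2) := by
  have h1 := h (negPt T V L Xi s) (Or.inl ⟨s, hs, rfl⟩)
  have h2 := L_self hL s
  rw [hs, norm_zero] at h2
  simp only [negPt, Prod.mk_sub_mk, ContinuousLinearMap.sub_apply, fn_apply, map_sub,
    ContinuousLinearMap.neg_apply] at h1
  nlinarith [h1, h2]

lemma related_pos (hL : ∀ s s', L s (V s') + L s' (V s) = 2 * ⟪P s, P s'⟫)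
    (hXi : ∀ a b, ⟪Xi a, b⟫ = -⟪a, Xi b⟫)
    {u : X0} {t : ℝ} {b : X0 →L[ℝ] ℝ} {β : ℝ}
    (h : ∀ p ∈ MM T V L P Xi, 0 ≤ (fn b β - p.2) ((u, t) - p.1)) (s : S) (hs : P s = T (V s)) :
    0 ≤ b u - b (V s) + L s u - ⟪T (V s) - Xi (T (V s)), T u⟫
      + (1 - t) * (1 / 4 * ‖T (V s)‖ ^ 2 - β) := by
  have h1 := h (posPt T V L Xi s) (Or.inr ⟨s, hs, rfl⟩)
  have h2 := L_self hL s
  rw [hs] at h2
  have h6 : ⟪Xi (T (V s)), T (V s)⟫ = 0 := by
    rw [real_inner_comm]; exact skew_self hXi _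
  simp only [posPt, Prod.mk_sub_mk, ContinuousLinearMap.sub_apply, fn_apply, map_sub,
    ContinuousLinearMap.neg_apply, ContinuousLinearMap.add_apply,
    ContinuousLinearMap.comp_apply, innerSL_apply_apply, inner_sub_left,
    real_inner_self_eq_norm_sq, h6] at h1
  rw [inner_sub_left]
  nlinarith [h1, h2]

/-- The key inequality. -/
lemma key (hL : ∀ s s', L s (V s') + L s' (V s) = 2 * ⟪P s, P s'⟫)
    (hXi : ∀ a b, ⟪Xi a, b⟫ = -⟪a, Xi b⟫)
    (dneg : ∀ y : X0, y ∈ closure (V '' {s | P s = 0}))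
    (dpos : ∀ y : X0, y ∈ closure (V '' {s | P s = T (V s)}))
    (dT : DenseRange T)
    {u : X0} {t : ℝ} {b : X0 →L[ℝ] ℝ} {β : ℝ} (ht : -1 < t) (ht' : t < 1)
    (h : ∀ p ∈ MM T V L P Xi, 0 ≤ (fn b β - p.2) ((u, t) - p.1))
    {m : E} {z : X0 →L[ℝ] ℝ}
    (hz : ∀ s, L s u + (z (V s) - b (V s)) = 2 * ⟪P s, m⟫)
    (hm : ‖m‖ ^ 2 ≤ z u - b u) (a' : E)
    (ha' : a' + ((1 + t) / 2) • Xi a' = T u) :
    m = T u - ((1 - t) / 2) • a' := by
  -- extended inequalities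
  have hneg : ∀ y : X0, 0 ≤ b u - z y + (1 + t) * (β + 1 / 4 * ‖Wop Xi (T y)‖ ^ 2) := by
    intro y
    have hcl : IsClosed {y : X0 | 0 ≤ b u - z y + (1 + t) * (β + 1 / 4 * ‖Wop Xi (T y)‖ ^ 2)} := by
      refine isClosed_le continuous_const ?_
      unfold Wop
      fun_prop
    refine (closure_minimal ?_ hcl) (dneg y)
    rintro _ ⟨s, hs, rfl⟩
    have h1 := related_neg hL h s hs
    have h2 := hz s
    rw [hs, inner_zero_left] at h2
    simp only [Set.mem_setOf_eq]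
    linarith
  have hpos : ∀ y : X0, 0 ≤ b u - z y + 2 * ⟪T y, m⟫ - ⟪T y - Xi (T y), T u⟫
      + (1 - t) * (1 / 4 * ‖T y‖ ^ 2 - β) := by
    intro y
    have hcl : IsClosed {y : X0 | 0 ≤ b u - z y + 2 * ⟪T y, m⟫ - ⟪T y - Xi (T y), T u⟫
      + (1 - t) * (1 / 4 * ‖T y‖ ^ 2 - β)} := by
      refine isClosed_le continuous_const ?_
      fun_prop
    refine (closure_minimal ?_ hcl) (dpos y)
    rintro _ ⟨s, hs, rfl⟩
    have h1 := related_pos hL hXi h s hs
    have h2 := hz s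
    rw [hs] at h2
    simp only [Set.mem_setOf_eq]
    linarith
  set la : ℝ := (1 + t) / 2 with hla
  set lb : ℝ := (1 - t) / 2 with hlb
  have hla0 : 0 < la := by rw [hla]; linarith
  have hlb0 : 0 < lb := by rw [hlb]; linarith
  have hsum : la + lb = 1 := by rw [hla, hlb]; ring
  have ht1 : (1 + t) = 2 * la := by rw [hla]; ring
  have ht2 : (1 - t) = 2 * lb := by rw [hlb]; ring
  -- inequality for all a in E
  have hall : ∀ a : E, 0 ≤ -‖m - la • a‖ ^ 2
      + 1 / 2 * la * lb * ‖a - Wop Xi (lb⁻¹ • (T u - la • a))‖ ^ 2 := by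
    have hcl : IsClosed {a : E | 0 ≤ -‖m - la • a‖ ^ 2
      + 1 / 2 * la * lb * ‖a - Wop Xi (lb⁻¹ • (T u - la • a))‖ ^ 2} := by
      refine isClosed_le continuous_const ?_
      unfold Wop
      fun_prop
    have hr : Set.range T ⊆ {a : E | 0 ≤ -‖m - la • a‖ ^ 2
      + 1 / 2 * la * lb * ‖a - Wop Xi (lb⁻¹ • (T u - la • a))‖ ^ 2} := by
      rintro _ ⟨y, rfl⟩
      simp only [Set.mem_setOf_eq]
      set y' : X0 := lb⁻¹ • (u - la • y) with hy'
      have hy : la • y + lb • y' = u := by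
        rw [hy', smul_smul, mul_inv_cancel₀ hlb0.ne', one_smul]; abel
      have hTy' : lb⁻¹ • (T u - la • T y) = T y' := by rw [hy']; simp
      rw [hTy']
      have h1 := hpos y
      have h2 := hneg y'
      rw [ht1] at h2
      rw [ht2] at h1
      have hu : T u = la • T y + lb • T y' := by rw [← hy]; simp
      have hzu : z u = la * z y + lb * z y' := by rw [← hy]; simp
      set A := T y with hA
      set A' := T y' with hA'
      have e1 : ‖m - la • A‖ ^ 2 = ‖m‖ ^ 2 - 2 * la * ⟪A, m⟫ + la ^ 2 * ‖A‖ ^ 2 := by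
        rw [norm_sub_sq_real, inner_smul_right, norm_smul, real_inner_comm, mul_pow,
          Real.norm_eq_abs, sq_abs]
        ring
      have e2 : ‖A - Wop Xi A'‖ ^ 2 = ‖A‖ ^ 2 - 2 * ⟪A, Wop Xi A'⟫ + ‖Wop Xi A'‖ ^ 2 := by
        rw [norm_sub_sq_real]
      have e3 : ⟪A - Xi A, T u⟫ = la * ‖A‖ ^ 2 + lb * ⟪A, Wop Xi A'⟫ := by
        have e4 : ⟪Xi A, A⟫ = 0 := by rw [real_inner_comm]; exact skew_self hXi _
        rw [hu, Wop]
        simp only [inner_add_right, inner_sub_left, inner_smul_right, e4,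
          real_inner_self_eq_norm_sq, hXi A A']
        ring
      rw [e3] at h1
      rw [e1, e2]
      have h3 : 0 ≤ la * (b u - z y + 2 * ⟪A, m⟫ - (la * ‖A‖ ^ 2 + lb * ⟪A, Wop Xi A'⟫)
          + 2 * lb * (1 / 4 * ‖A‖ ^ 2 - β)) := mul_nonneg hla0.le h1
      have h4 : 0 ≤ lb * (b u - z y' + 2 * la * (β + 1 / 4 * ‖Wop Xi A'‖ ^ 2)) :=
        mul_nonneg hlb0.le h2
      have h5 : b u = la * b u + lb * b u := by rw [← add_mul, hsum, one_mul]
      nlinarith [h3, h4, hzu, hm, h5]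
    intro a
    exact (closure_minimal hr hcl) (dT a)
  have h1 := hall (Wop Xi a')
  have h2 : T u - la • Wop Xi a' = lb • a' := by
    rw [← ha', Wop, smul_add]
    have : a' = la • a' + lb • a' := by rw [← add_smul, hsum, one_smul]
    nth_rw 1 [this]
    abel
  rw [h2, smul_smul, inv_mul_cancel₀ hlb0.ne', one_smul, sub_self, norm_zero] at h1
  have h3 : ‖m - la • Wop Xi a'‖ ^ 2 = 0 :=
    le_antisymm (by nlinarith [h1]) (sq_nonneg _)
  have h4 : m = la • Wop Xi a' := by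
    have : ‖m - la • Wop Xi a'‖ = 0 := by
      exact pow_eq_zero_iff (two_ne_zero) |>.1 h3
    exact sub_eq_zero.1 (norm_eq_zero.1 this)
  rw [h4, ← h2]
  abel

end

end Pool.Agent.Helper15_MM
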