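import Pool.Agent.Helper15_MM.Related

/-!
Maximally monotone extension and the conclusion: the closure of the domain is not convex.
-/

set_option autoImplicit false

open Filter Topology
open scoped RealInnerProductSpace

namespace Pool.Agent.Helper15_MM

/-- Every monotone set is contained in a maximal one. -/
lemma exists_maximal {Y : Type*} [NormedAddCommGroup Y] [NormedSpace ℝ Y]
    (M : Set (Y × (Y →L[ℝ] ℝ))) (hM : Mono M) :
    ∃ G : Set (Y × (Y →L[ℝ] ℝ)), M ⊆ G ∧ Mono G ∧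
      ∀ q : Y × (Y →L[ℝ] ℝ), (∀ p ∈ G, 0 ≤ (q.2 - p.2) (q.1 - p.1)) → q ∈ G := by
  obtain ⟨G, hMG, hG⟩ := zorn_subset_nonempty {G : Set (Y × (Y →L[ℝ] ℝ)) | Mono G} (by
    intro c hc hchain hne
    refine ⟨⋃₀ c, ?_, fun s hs => Set.subset_sUnion_of_mem hs⟩
    rintro p ⟨s, hs, hps⟩ q ⟨s', hs', hqs'⟩
    rcases hchain.total hs hs' with h | h
    · exact hc hs' p (h hps) q hqs'
    · exact hc hs p hps q (h hqs')) M hM
  refine ⟨G, hMG, hG.prop, fun q hq => ?_⟩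
  have h1 : Mono (insert q G) := by
    intro p hp p' hp'
    rcases Set.mem_insert_iff.1 hp with rfl | hp1 <;> rcases Set.mem_insert_iff.1 hp' with rfl | hp2
    · simp
    · exact hq p' hp2
    · have := hq p hp1
      rw [← neg_sub p.2 p'.2, ← neg_sub p.1 p'.1, ContinuousLinearMap.neg_apply, map_neg,
        neg_neg] at this
      exact this
    · exact hG.prop p hp1 p' hp2
  have h2 := hG.le_of_ge h1 (Set.subset_insert q G)
  exact h2 (Set.mem_insert q G)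

/-- the space of the counterexample -/
abbrev XX := C × ℝ

lemma continuous_F : Continuous (fun q : XX => ⟪pv, T q.1⟫ + (1 + q.2) / 2 * ⟪r, T q.1⟫) := by
  fun_prop

/-- There is a maximally monotone operator on `c₀(ℕ × ℕ) × ℝ` whose domain has a non-convex
closure. -/
theorem exists_nonconvex :
    ∃ G : Set (XX × (XX →L[ℝ] ℝ)), Mono G ∧
      (∀ q : XX × (XX →L[ℝ] ℝ), (∀ p ∈ G, 0 ≤ (q.2 - p.2) (q.1 - p.1)) → q ∈ G) ∧
      ¬ Convex ℝ (closure {x : XX | ∃ f, (x, f) ∈ G}) := by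
  obtain ⟨G, hMG, hG, hmax⟩ := exists_maximal (MM T V L P Xi) (mono_MM hL hXi)
  refine ⟨G, hG, hmax, fun hconv => ?_⟩
  set D : Set XX := {x : XX | ∃ f, (x, f) ∈ G} with hD
  have hF : ∀ x ∈ D, -1 < x.2 → x.2 < 1 → ⟪pv, T x.1⟫ + (1 + x.2) / 2 * ⟪r, T x.1⟫ = 0 := by
    rintro ⟨u, t⟩ ⟨f, hf⟩ ht ht'
    obtain ⟨b, β, rfl⟩ := exists_fn f
    exact related_closed ht ht' (fun p hp => hG _ hf p (hMG hp))
  -- two points of the domain
  have h1 : ((0 : C), (1 : ℝ)) ∈ D := by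
    refine ⟨(posPt T V L Xi 0).2, hMG (Or.inr ⟨0, by simp, ?_⟩)⟩
    simp [posPt]
  set v : C := V (Finsupp.single (0, 1) 1) with hv
  have h2 : (v, (-1 : ℝ)) ∈ D := by
    refine ⟨(negPt T V L Xi (Finsupp.single (0, 1) 1)).2, hMG (Or.inl
      ⟨Finsupp.single (0, 1) 1, by rw [P_single, p0_succ 0 0, smul_zero], ?_⟩)⟩
    simp [negPt, hv]
  have hTv : T v = tau 0 • ep 0 := by
    rw [hv, V_single, one_smul, g_succ 0 0, map_add, T_e_succ, zero_add, T_e_zero]
  -- the midpoint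
  have hmid : (((1 / 2 : ℝ) • v), (0 : ℝ)) ∈ closure D := by
    have h3 := hconv (subset_closure h1) (subset_closure h2) (a := 1 / 2) (b := 1 / 2)
      (by norm_num) (by norm_num) (by norm_num)
    have h4 : (1 / 2 : ℝ) • ((0 : C), (1 : ℝ)) + (1 / 2 : ℝ) • (v, (-1 : ℝ))
        = (((1 / 2 : ℝ) • v), (0 : ℝ)) := by
      simp
    rwa [h4] at h3
  have hopen : IsOpen {x : XX | -1 < x.2 ∧ x.2 < 1} :=
    (isOpen_lt continuous_const continuous_snd).inter (isOpen_lt continuous_snd continuous_const)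
  have h5 : (((1 / 2 : ℝ) • v), (0 : ℝ)) ∈ closure ({x : XX | -1 < x.2 ∧ x.2 < 1} ∩ D) :=
    hopen.inter_closure ⟨by constructor <;> norm_num, hmid⟩
  have hcl : IsClosed {x : XX | ⟪pv, T x.1⟫ + (1 + x.2) / 2 * ⟪r, T x.1⟫ = 0} :=
    isClosed_eq continuous_F continuous_const
  have h6 : ⟪pv, T ((1 / 2 : ℝ) • v)⟫ + (1 + (0 : ℝ)) / 2 * ⟪r, T ((1 / 2 : ℝ) • v)⟫ = 0 :=
    closure_minimal (fun x hx => hF x hx.2 hx.1.1 hx.1.2) hcl h5
  simp only [map_smul, hTv, inner_smul_right, pv, inner_ep, inner_ep', r_apply,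
    ep_apply] at h6
  norm_num [tau] at h6

end Pool.Agent.Helper15_MM
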