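import Pool.Agent.Helper15_MM.CZero
import Pool.Agent.Helper15_MM.Abstract

/-!
The concrete data on `c₀(ℕ × ℕ)` and `ℓ²(ℕ)`.
-/

set_option autoImplicit false

open Filter Topology
open scoped ZeroAtInfty RealInnerProductSpace

namespace Pool.Agent.Helper15_MM

/-- the Hilbert space `ℓ²(ℕ)` -/
abbrev H := lp (fun _ : ℕ => ℝ) 2

/-- unit vectors of `ℓ²` -/
noncomputable def ep (k : ℕ) : H := lp.single 2 k (1 : ℝ)

lemma ep_apply (k j : ℕ) : (ep k : ℕ → ℝ) j = if j = k then 1 else 0 := by
  simp [ep, lp.single_apply, Pi.single_apply]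

lemma norm_ep (k : ℕ) : ‖ep k‖ = 1 := by
  rw [ep, lp.norm_single (by norm_num)]
  simp

lemma inner_ep (k : ℕ) (a : H) : ⟪ep k, a⟫ = a k := by
  rw [ep, lp.inner_single_left]
  simp

lemma inner_ep' (k : ℕ) (a : H) : ⟪a, ep k⟫ = a k := by
  rw [real_inner_comm, inner_ep]

/-- weights -/
noncomputable def tau (k : ℕ) : ℝ := (1 / 2) ^ k

lemma tau_pos (k : ℕ) : 0 < tau k := by unfold tau; positivity

lemma summable_tau : Summable tau := summable_geometric_two

/-- the bounded operator T with k-th coordinate τ_k u(k,0) -/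
noncomputable def T : C →L[ℝ] H :=
  ∑' k : ℕ, tau k • (coord (k, 0)).smulRight (ep k)

lemma summable_T : Summable (fun k : ℕ => tau k • (coord (k, 0)).smulRight (ep k)) := by
  refine Summable.of_norm_bounded summable_tau (fun k => ?_)
  rw [norm_smul, ContinuousLinearMap.norm_smulRight_apply, norm_ep, mul_one, Real.norm_eq_abs,
    abs_of_pos (tau_pos k)]
  exact mul_le_of_le_one_right (tau_pos k).le (norm_coord_le _)

lemma T_e_zero (j : ℕ) : T (e (j, 0)) = tau j • ep j := by
  have h := summable_T.hasSum.mapL (ContinuousLinearMap.apply ℝ H (e (j, 0)))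
  have h2 : HasSum (fun k : ℕ => (tau k • (coord (k, 0)).smulRight (ep k)) (e (j, 0)))
      (tau j • ep j) := by
    have := hasSum_single (f := fun k : ℕ =>
      (tau k • (coord (k, 0)).smulRight (ep k)) (e (j, 0))) j (by
        intro k hk
        simp [e_apply, hk])
    simpa using this
  exact h.unique h2

lemma T_e_succ (j n : ℕ) : T (e (j, n + 1)) = 0 := by
  have h := summable_T.hasSum.mapL (ContinuousLinearMap.apply ℝ H (e (j, n + 1)))
  have h2 : HasSum (fun k : ℕ => (tau k • (coord (k, 0)).smulRight (ep k)) (e (j, n + 1)))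
      (0 : H) := by
    have : (fun k : ℕ => (tau k • (coord (k, 0)).smulRight (ep k)) (e (j, n + 1)))
        = fun _ => (0 : H) := by
      funext k
      simp [e_apply]
    rw [this]
    exact hasSum_zero
  exact h.unique h2

lemma T_apply (u : C) (k : ℕ) : (T u : ℕ → ℝ) k = tau k * u (k, 0) := by
  have h : (innerSL ℝ (ep k)).comp T = tau k • coord (k, 0) := by
    refine ext_e ?_
    rintro ⟨j, n⟩
    rcases n with _ | n
    · simp only [ContinuousLinearMap.comp_apply, innerSL_apply_apply, T_e_zero, inner_ep,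
        ContinuousLinearMap.smul_apply, coord_apply, e_apply, smul_eq_mul]
      rw [lp.coeFn_smul, Pi.smul_apply, ep_apply]
      by_cases hkj : k = j
      · simp [hkj]
      · simp [hkj]
    · simp [T_e_succ, e_apply]
  have h2 := congrArg (fun f : C →L[ℝ] ℝ => f u) h
  simpa [inner_ep] using h2

lemma denseRange_T : DenseRange T := by
  intro a
  have h := lp.hasSum_single (E := fun _ : ℕ => ℝ) (p := 2) (by norm_num) a
  rw [HasSum, SummationFilter.unconditional_filter] at h
  refine mem_closure_of_tendsto h (Eventually.of_forall fun F => ?_)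
  refine ⟨∑ k ∈ F, (a k * (tau k)⁻¹) • e (k, 0), ?_⟩
  rw [map_sum]
  refine Finset.sum_congr rfl (fun k _ => ?_)
  rw [map_smul, T_e_zero, smul_smul, mul_assoc, inv_mul_cancel₀ (tau_pos k).ne', mul_one, ep,
    ← lp.single_smul]
  simp

/-- generators `g (k,0) = e (k,0)`, `g (k,n+1) = e (k,n+1) + e (k,n)` -/
noncomputable def g : I → C
  | (k, 0) => e (k, 0)
  | (k, n + 1) => e (k, n + 1) + e (k, n)

/-- functionals `l (k,0) = coord (k,0)`, `l (k,n+1) = coord (k,n+1) - coord (k,n)` -/
noncomputable def l : I → (C →L[ℝ] ℝ)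
  | (k, 0) => coord (k, 0)
  | (k, n + 1) => coord (k, n + 1) - coord (k, n)

/-- traces -/
noncomputable def p0 : I → H
  | (k, 0) => ep k
  | (_, _ + 1) => 0

/-- `V s = s + shift s` -/
noncomputable def V : (I →₀ ℝ) →ₗ[ℝ] C := Finsupp.linearCombination ℝ g

/-- the functional of `s - shift s` -/
noncomputable def L : (I →₀ ℝ) →ₗ[ℝ] (C →L[ℝ] ℝ) := Finsupp.linearCombination ℝ l

/-- the trace of `s` -/
noncomputable def P : (I →₀ ℝ) →ₗ[ℝ] H := Finsupp.linearCombination ℝ p0

lemma V_single (i : I) (c : ℝ) : V (Finsupp.single i c) = c • g i := by simp [V]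

lemma L_single (i : I) (c : ℝ) : L (Finsupp.single i c) = c • l i := by simp [L]

lemma P_single (i : I) (c : ℝ) : P (Finsupp.single i c) = c • p0 i := by simp [P]

lemma l_g (i j : I) : l i (g j) + l j (g i) = 2 * ⟪p0 i, p0 j⟫ := by
  obtain ⟨k, n⟩ := i
  obtain ⟨k', n'⟩ := j
  rcases n with _ | n <;> rcases n' with _ | n'
  · simp only [l, g, p0, coord_apply, e_apply, inner_ep, ep_apply, Prod.mk.injEq, and_true]
    by_cases h : k = k'
    · subst h; norm_num
    · simp [h, Ne.symm h]
  · simp only [l, g, p0, coord_apply, e_apply, ContinuousLinearMap.sub_apply,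
      C.add_apply, Prod.mk.injEq, inner_zero_right]
    by_cases h : k = k'
    · subst h
      rcases n' with _ | n'
      · simp
      · simp
    · simp [h, Ne.symm h]
  · simp only [l, g, p0, coord_apply, e_apply, ContinuousLinearMap.sub_apply,
      C.add_apply, Prod.mk.injEq, inner_zero_left]
    by_cases h : k = k'
    · subst h
      rcases n with _ | n
      · simp
      · simp
    · simp [h, Ne.symm h]
  · simp only [l, g, p0, coord_apply, e_apply, ContinuousLinearMap.sub_apply,
      C.add_apply, Prod.mk.injEq, inner_zero_left]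
    by_cases h : k = k'
    · subst h
      simp only [true_and, add_left_inj]
      by_cases h1 : n = n'
      · subst h1; simp
      · by_cases h2 : n + 1 = n'
        · subst h2
          have h7 : ¬ n + 1 + 1 = n := by omega
          have h8 : ¬ n = n + 1 + 1 := by omega
          simp [h7, h8]
        · by_cases h3 : n' + 1 = n
          · subst h3
            have h7 : ¬ n' + 1 + 1 = n' := by omega
            have h8 : ¬ n' = n' + 1 + 1 := by omega
            simp [h7, h8]
          · have h4 : ¬ n' = n := fun h => h1 h.symm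
            have h5 : ¬ n' = n + 1 := fun h => h2 h.symm
            have h6 : ¬ n = n' + 1 := fun h => h3 h.symm
            simp [h1, h2, h3, h4, h5, h6]
    · simp [h, Ne.symm h]

lemma hL (s s' : I →₀ ℝ) : L s (V s') + L s' (V s) = 2 * ⟪P s, P s'⟫ := by
  induction s using Finsupp.induction_linear with
  | zero => simp
  | add f f' hf hf' =>
    simp only [map_add, ContinuousLinearMap.add_apply, inner_add_left] at *
    linarith
  | single i c =>
    induction s' using Finsupp.induction_linear with
    | zero => simp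
    | add f f' hf hf' =>
      simp only [map_add, ContinuousLinearMap.add_apply, inner_add_right] at *
      linarith
    | single j d =>
      simp only [V_single, L_single, P_single, map_smul, ContinuousLinearMap.smul_apply,
        smul_eq_mul, inner_smul_left, inner_smul_right, conj_trivial]
      have := l_g i j
      linear_combination c * d * this

/-- the vector `r = (1/k)_k` of `ℓ²` -/
noncomputable def r : H :=
  ⟨fun k : ℕ => (k : ℝ)⁻¹, by
    refine memℓp_gen ?_
    have h := (Real.summable_nat_pow_inv (p := 2)).2 (by norm_num)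
    convert h using 2 with k
    simp⟩

lemma r_apply (k : ℕ) : (r : ℕ → ℝ) k = (k : ℝ)⁻¹ := rfl

/-- the vector `p = e_0` -/
noncomputable def pv : H := ep 0

lemma inner_pv_r : ⟪pv, r⟫ = 0 := by
  rw [pv, inner_ep, r_apply]; simp

lemma inner_pv_pv : ⟪pv, pv⟫ = 1 := by
  rw [pv, inner_ep, ep_apply]; simp

/-- the skew operator of rank two -/
noncomputable def Xi : H →L[ℝ] H :=
  (innerSL ℝ pv).smulRight r - (innerSL ℝ r).smulRight pv

lemma Xi_apply (a : H) : Xi a = ⟪pv, a⟫ • r - ⟪r, a⟫ • pv := by
  simp [Xi]

lemma hXi (a b : H) : ⟪Xi a, b⟫ = -⟪a, Xi b⟫ := by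
  rw [Xi_apply, Xi_apply, inner_sub_left, inner_sub_right, inner_smul_left, inner_smul_left,
    inner_smul_right, inner_smul_right, real_inner_comm a r, real_inner_comm a pv]
  simp only [conj_trivial]
  ring

/-- alternating and tending to zero implies zero -/
lemma zero_of_alt {f : ℕ → ℝ} (h : ∀ n, f (n + 1) = -f n) (hf : Tendsto f atTop (𝓝 0)) (n : ℕ) :
    f n = 0 := by
  have h1 : ∀ n, |f n| = |f 0| := by
    intro n
    induction n with
    | zero => rfl
    | succ n ih => rw [h, abs_neg, ih]
  have h2 : Tendsto (fun n => |f n|) atTop (𝓝 |0|) := hf.abs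
  have h3 : |f 0| = 0 := by
    have h4 : Tendsto (fun _ : ℕ => |f 0|) atTop (𝓝 |0|) := by
      refine h2.congr (fun n => h1 n)
    have := tendsto_nhds_unique h4 tendsto_const_nhds
    simpa using this.symm
  exact abs_eq_zero.1 ((h1 n).trans h3)

lemma tendsto_slice (f : I → ℝ) (hf : Tendsto f cofinite (𝓝 0)) (k : ℕ) :
    Tendsto (fun n => f (k, n)) atTop (𝓝 0) := by
  have : Tendsto (fun n : ℕ => ((k, n) : I)) cofinite cofinite :=
    Function.Injective.tendsto_cofinite (fun a b h => (Prod.mk.inj h).2)
  rw [← Nat.cofinite_eq_atTop]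
  exact hf.comp this

lemma g_zero (k : ℕ) : g (k, 0) = e (k, 0) := rfl
lemma g_succ (k n : ℕ) : g (k, n + 1) = e (k, n + 1) + e (k, n) := rfl
lemma l_zero (k : ℕ) : l (k, 0) = coord (k, 0) := rfl
lemma l_succ (k n : ℕ) : l (k, n + 1) = coord (k, n + 1) - coord (k, n) := rfl
lemma p0_zero (k : ℕ) : p0 (k, 0) = ep k := rfl
lemma p0_succ (k n : ℕ) : p0 (k, n + 1) = 0 := rfl

lemma dneg (y : C) : y ∈ closure (V '' {s | P s = 0}) := by
  have h := dense_of_forall (V := (LinearMap.ker P).map V) ?_ y
  · refine closure_mono ?_ h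
    rintro _ ⟨s, hs, rfl⟩
    exact ⟨s, hs, rfl⟩
  · intro φ hφ
    refine ext_e ?_
    rintro ⟨k, n⟩
    have h1 : ∀ n, φ (e (k, n + 1)) = -φ (e (k, n)) := by
      intro n
      have h2 := hφ (V (Finsupp.single (k, n + 1) 1)) ⟨Finsupp.single (k, n + 1) 1, by
        simp [P_single, p0_succ], rfl⟩
      rw [V_single, one_smul, g_succ, map_add] at h2
      linarith
    simpa using zero_of_alt (f := fun n => φ (e (k, n))) h1
      (tendsto_slice _ (tendsto_apply_e φ) k) n

lemma dpos (y : C) : y ∈ closure (V '' {s | P s = T (V s)}) := by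
  have h := dense_of_forall (V := (LinearMap.ker (P - T.toLinearMap ∘ₗ V)).map V) ?_ y
  · refine closure_mono ?_ h
    rintro _ ⟨s, hs, rfl⟩
    refine ⟨s, ?_, rfl⟩
    have hs' : P s - T (V s) = 0 := hs
    exact sub_eq_zero.1 hs'
  · intro φ hφ
    have hφ' : ∀ s, P s = T (V s) → φ (V s) = 0 := by
      intro s hs
      refine hφ _ ⟨s, ?_, rfl⟩
      have : P s - T (V s) = 0 := sub_eq_zero.2 hs
      exact this
    have h1 : ∀ k n, φ (e (k, n + 1)) = 0 := by
      intro k n
      refine zero_of_alt (f := fun n => φ (e (k, n + 1))) (fun n => ?_)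
        ((tendsto_slice _ (tendsto_apply_e φ) k).comp (tendsto_add_atTop_nat 1)) n
      have h2 := hφ' (Finsupp.single (k, n + 2) 1) (by
        rw [P_single, V_single, one_smul, one_smul, p0_succ, g_succ, map_add, T_e_succ, T_e_succ,
          add_zero])
      rw [V_single, one_smul, g_succ, map_add] at h2
      linarith
    refine ext_e ?_
    rintro ⟨k, n⟩
    rcases n with _ | n
    · have h3 := hφ' (Finsupp.single (k, 0) (tau k) + Finsupp.single (k, 1) (1 - tau k)) (by
        rw [map_add, map_add, P_single, P_single, V_single, V_single, p0_zero, p0_succ k 0,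
          g_zero, g_succ k 0, smul_zero, add_zero, map_add, map_smul, map_smul, map_add,
          T_e_zero, T_e_succ, zero_add, smul_smul, smul_smul, ← add_smul]
        congr 1
        ring)
      rw [map_add, V_single, V_single, g_zero, g_succ k 0, map_add, map_smul, map_smul, map_add,
        zero_add, h1 k 0] at h3
      simp only [smul_eq_mul, zero_add] at h3
      have : φ (e (k, 0)) = 0 := by linarith
      simpa using this
    · simpa using h1 k n

end Pool.Agent.Helper15_MM
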