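import Pool.Agent.Helper15_MM.Model

/-!
Elements monotonically related to the set `MM`: structure at the levels `|t| < 1`.
-/

set_option autoImplicit false

open Filter Topology
open scoped RealInnerProductSpace

namespace Pool.Agent.Helper15_MM

lemma lin_zero {A B : ℝ} (h : ∀ c : ℝ, 0 ≤ A + c * B) : B = 0 := by
  by_contra hB
  have h1 := h ((-A - 1) / B)
  rw [div_mul_cancel₀ _ hB] at h1
  linarith

lemma quad_bound {A w q : ℝ} (h : ∀ c : ℝ, 0 ≤ A - c * w + c ^ 2 * q) : w ^ 2 ≤ 4 * q * A := by
  have h1 : ∀ c : ℝ, 0 ≤ q * (c * c) + (-w) * c + A := by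
    intro c
    have := h c
    nlinarith
  have h2 := discrim_le_zero h1
  rw [discrim] at h2
  nlinarith

section

variable {u : C} {t : ℝ} {b : C →L[ℝ] ℝ} {β : ℝ}

/-- the candidate for `s` with `u = s + shift s` -/
noncomputable def sf (u : C) (b : C →L[ℝ] ℝ) : I → ℝ
  | (k, 0) => u (k, 0) - (u (k, 1) - b (e (k, 1))) / 2
  | (k, n + 1) => (u (k, n + 1) - b (e (k, n + 1))) / 2

/-- the defect -/
noncomputable def om (u : C) (b : C →L[ℝ] ℝ) (k : ℕ) : ℝ :=
  b (e (k, 0)) + b (e (k, 1)) + u (k, 0) - u (k, 1)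

lemma Wop_smul (c : ℝ) (a : H) : Wop Xi (c • a) = c • Wop Xi a := by
  simp [Wop]

lemma norm_Wop_ep (k : ℕ) : ‖Wop Xi (ep k)‖ ≤ 1 + ‖Xi‖ := by
  unfold Wop
  refine (norm_add_le _ _).trans ?_
  rw [norm_ep]
  have := Xi.le_opNorm (ep k)
  rw [norm_ep, mul_one] at this
  linarith

lemma rel_succ (h : ∀ p ∈ MM T V L P Xi, 0 ≤ (fn b β - p.2) ((u, t) - p.1)) (k n : ℕ) :
    u (k, n + 2) - u (k, n + 1) = b (e (k, n + 1)) + b (e (k, n + 2)) := by
  have h1 : ∀ c : ℝ, 0 ≤ (b u + (1 + t) * (β + 1 / 4 * ‖Wop Xi (0 : H)‖ ^ 2))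
      + c * ((u (k, n + 2) - u (k, n + 1)) - (b (e (k, n + 1)) + b (e (k, n + 2)))) := by
    intro c
    have h2 := related_neg hL h (Finsupp.single (k, n + 2) c) (by
      rw [P_single, p0_succ, smul_zero])
    rw [V_single, L_single, g_succ, l_succ] at h2
    simp only [map_smul, map_add, T_e_succ, add_zero, smul_zero, ContinuousLinearMap.smul_apply,
      ContinuousLinearMap.sub_apply, coord_apply, smul_eq_mul] at h2
    linarith
  have := lin_zero h1
  linarith

lemma rel_zero (h : ∀ p ∈ MM T V L P Xi, 0 ≤ (fn b β - p.2) ((u, t) - p.1)) (k : ℕ) (c : ℝ) :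
    0 ≤ (b u + (1 + t) * β) - c * om u b k
      + c ^ 2 * ((1 + t) * (1 / 4 * (tau k ^ 2 * ‖Wop Xi (ep k)‖ ^ 2))) := by
  have h2 := related_neg hL h (Finsupp.single (k, 1) c) (by
      rw [P_single, p0_succ k 0, smul_zero])
  rw [V_single, L_single, g_succ k 0, l_succ k 0] at h2
  simp only [map_smul, map_add, T_e_succ, zero_add, T_e_zero, Wop_smul, norm_smul,
    ContinuousLinearMap.smul_apply,
    ContinuousLinearMap.sub_apply, coord_apply, smul_eq_mul, mul_pow, Real.norm_eq_abs,
    sq_abs] at h2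
  rw [om]
  nlinarith [h2]

lemma summable_om (ht : -1 < t)
    (h : ∀ p ∈ MM T V L P Xi, 0 ≤ (fn b β - p.2) ((u, t) - p.1)) :
    Summable (fun k => |om u b k|) := by
  set A := b u + (1 + t) * β with hA
  have hA0 : 0 ≤ A := by simpa [hA] using rel_zero h 0 0
  refine Summable.of_nonneg_of_le (fun _ => abs_nonneg _)
    (f := fun k => (Real.sqrt ((1 + t) * A) * (1 + ‖Xi‖)) * tau k) (fun k => ?_)
    (summable_tau.mul_left _)
  have h1 := quad_bound (rel_zero h k)
  rw [← hA] at h1
  have h2 : om u b k ^ 2 ≤ ((Real.sqrt ((1 + t) * A) * (1 + ‖Xi‖)) * tau k) ^ 2 := by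
    rw [mul_pow, mul_pow, Real.sq_sqrt (mul_nonneg (by linarith) hA0)]
    refine h1.trans ?_
    have h3 : ‖Wop Xi (ep k)‖ ^ 2 ≤ (1 + ‖Xi‖) ^ 2 :=
      pow_le_pow_left₀ (norm_nonneg _) (norm_Wop_ep k) 2
    have h4 : 0 ≤ (1 + t) * A * tau k ^ 2 :=
      mul_nonneg (mul_nonneg (by linarith) hA0) (sq_nonneg _)
    nlinarith [mul_le_mul_of_nonneg_left h3 h4]
  exact abs_le_of_sq_le_sq h2 (by have := (tau_pos k).le; positivity)

/-- the functional `z = ∑ ω_k coord (k,0)` -/
noncomputable def zf (u : C) (b : C →L[ℝ] ℝ) : C →L[ℝ] ℝ := ∑' k, om u b k • coord (k, 0)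

lemma zf_apply (hs : Summable (fun k => |om u b k|)) (v : C) :
    HasSum (fun k => om u b k * v (k, 0)) (zf u b v) := by
  have h1 : Summable (fun k => om u b k • coord (k, 0)) := by
    refine Summable.of_norm_bounded hs (fun k => ?_)
    rw [norm_smul, Real.norm_eq_abs]
    exact mul_le_of_le_one_right (abs_nonneg _) (norm_coord_le _)
  have h := h1.hasSum.mapL (ContinuousLinearMap.apply ℝ ℝ v)
  simpa [zf] using h

lemma zf_e_zero (hs : Summable (fun k => |om u b k|)) (j : ℕ) :
    zf u b (e (j, 0)) = om u b j := by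
  refine (zf_apply hs _).unique ?_
  have := hasSum_single (f := fun k : ℕ => om u b k * e (j, 0) (k, 0)) j (by
        intro k hk
        simp [e_apply, hk])
  simpa using this

lemma zf_e_succ (hs : Summable (fun k => |om u b k|)) (j n : ℕ) :
    zf u b (e (j, n + 1)) = 0 := by
  refine (zf_apply hs _).unique ?_
  have : (fun k : ℕ => om u b k * e (j, n + 1) (k, 0)) = fun _ => (0 : ℝ) := by
    funext k; simp [e_apply]
  rw [this]
  exact hasSum_zero

/-- `s + shift s = u` -/
lemma sf_add (h : ∀ p ∈ MM T V L P Xi, 0 ≤ (fn b β - p.2) ((u, t) - p.1)) (k n : ℕ) :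
    sf u b (k, n) + sf u b (k, n + 1) = u (k, n) := by
  rcases n with _ | n
  · simp [sf]
  · simp only [sf]
    have := rel_succ h k n
    linarith

/-- `s - shift s = x` -/
lemma sf_sub (hs : Summable (fun k => |om u b k|))
    (h : ∀ p ∈ MM T V L P Xi, 0 ≤ (fn b β - p.2) ((u, t) - p.1)) (k n : ℕ) :
    sf u b (k, n) - sf u b (k, n + 1) = zf u b (e (k, n)) - b (e (k, n)) := by
  rcases n with _ | n
  · rw [zf_e_zero hs]
    simp only [sf, om]
    ring_nf
  · rw [zf_e_succ hs]
    simp only [sf]
    have := rel_succ h k n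
    linarith

/-- sends (k,0) to (k,1), other indices are fixed -/
def up : I → I
  | (k, 0) => (k, 1)
  | (k, n + 1) => (k, n + 1)

lemma tendsto_up : Tendsto up cofinite cofinite := by
  refine Filter.Tendsto.cofinite_of_finite_preimage_singleton (fun j => ?_)
  refine Set.Finite.subset ((Set.finite_singleton j).union (Set.finite_singleton (j.1, 0))) ?_
  rintro ⟨k, n⟩ hi
  rcases n with _ | n
  · right
    simp only [Set.mem_preimage, up, Set.mem_singleton_iff] at hi ⊢
    rw [← hi]
  · left
    simpa [up] using hi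

lemma tendsto_sf (hs : Summable (fun k => |om u b k|))
    (h : ∀ p ∈ MM T V L P Xi, 0 ≤ (fn b β - p.2) ((u, t) - p.1)) :
    Tendsto (sf u b) cofinite (𝓝 0) := by
  have h1 : ∀ i, sf u b i = (u (up i) - b (e (up i))) / 2
      + (if i.2 = 0 then (zf u b - b) (e i) else 0) := by
    rintro ⟨k, n⟩
    rcases n with _ | n
    · have := sf_sub hs h k 0
      simp only [up, if_true, ContinuousLinearMap.sub_apply]
      rw [← this]
      simp only [sf, zero_add]
      ring
    · simp [up, sf]
  rw [show sf u b = fun i => (u (up i) - b (e (up i))) / 2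
      + (if i.2 = 0 then (zf u b - b) (e i) else 0) from funext h1]
  have h2 : Tendsto (fun i => (u (up i) - b (e (up i))) / 2) cofinite (𝓝 0) := by
    have h3 := ((tendsto_coe u).comp tendsto_up).sub ((tendsto_apply_e b).comp tendsto_up)
    simpa using h3.div_const 2
  have h4 : Tendsto (fun i : I => if i.2 = 0 then (zf u b - b) (e i) else 0) cofinite (𝓝 0) := by
    refine squeeze_zero_norm (fun i => ?_) (tendsto_norm_zero.comp (tendsto_apply_e (zf u b - b)))
    simp only [Function.comp_apply]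
    split_ifs
    · exact le_rfl
    · simp
  simpa using h2.add h4

/-- the shift operator -/
noncomputable def sh : C →L[ℝ] C :=
  LinearMap.mkContinuous
    { toFun := fun v => mk0 (fun i => v (i.1, i.2 + 1)) (by
        have : Tendsto (fun i : I => ((i.1, i.2 + 1) : I)) cofinite cofinite := by
          refine Function.Injective.tendsto_cofinite ?_
          rintro ⟨a, c⟩ ⟨a', c'⟩ h
          simp only [Prod.mk.injEq, add_left_inj] at h
          exact Prod.ext h.1 h.2
        exact (tendsto_coe v).comp this)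
      map_add' := fun _ _ => rfl
      map_smul' := fun _ _ => rfl } 1
    (fun v => by
      rw [one_mul]
      exact norm_le_of _ (norm_nonneg _) (fun i => abs_apply_le v _))

lemma sh_apply (v : C) (k n : ℕ) : sh v (k, n) = v (k, n + 1) := rfl

lemma g_eq (i : I) : g i = e i + sh (e i) := by
  obtain ⟨k, n⟩ := i
  refine C.ext ?_
  rintro ⟨k', n'⟩
  rcases n with _ | n
  · simp [g_zero, sh_apply, e_apply]
  · simp [g_succ, sh_apply, e_apply]

lemma hasSum_x (hs : Summable (fun k => |om u b k|))
    (h : ∀ p ∈ MM T V L P Xi, 0 ≤ (fn b β - p.2) ((u, t) - p.1)) :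
    HasSum (fun k => sf u b (k, 0) ^ 2) ((zf u b - b) u) := by
  set S := mk0 (sf u b) (tendsto_sf hs h) with hS
  have hSi : ∀ i, S i = sf u b i := fun i => rfl
  have h1 : S + sh S = u := by
    refine C.ext ?_
    rintro ⟨k, n⟩
    rw [C.add_apply, sh_apply, hSi, hSi, sf_add h]
  have h2 : HasSum (fun i => sf u b i • g i) u := by
    have h3 := (hasSum_e S).add ((hasSum_e S).mapL sh)
    rw [h1] at h3
    refine h3.congr_fun ?_ |> fun h => h
    intro i
    rw [g_eq, hSi, map_smul, smul_add]
  have h4 : HasSum (fun i => sf u b i * (zf u b - b) (g i)) ((zf u b - b) u) := by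
    have := h2.mapL (zf u b - b)
    simpa using this
  refine h4.prod_fiberwise (fun k => ?_)
  -- telescoping
  have hsum : Summable (fun n => sf u b (k, n) * (zf u b - b) (g (k, n))) :=
    h4.summable.prod_factor k
  have hpart : ∀ N, ∑ n ∈ Finset.range (N + 1), sf u b (k, n) * (zf u b - b) (g (k, n))
      = sf u b (k, 0) ^ 2 - sf u b (k, N) * sf u b (k, N + 1) := by
    intro N
    induction N with
    | zero =>
      rw [Finset.sum_range_one, g_zero, ContinuousLinearMap.sub_apply, ← sf_sub hs h]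
      ring
    | succ N ih =>
      rw [Finset.sum_range_succ, ih, g_succ, map_add, ContinuousLinearMap.sub_apply,
        ContinuousLinearMap.sub_apply, ← sf_sub hs h, ← sf_sub hs h]
      ring
  have ht1 := tendsto_slice _ (tendsto_sf hs h) k
  have ht2 : Tendsto (fun N => ∑ n ∈ Finset.range (N + 1),
      sf u b (k, n) * (zf u b - b) (g (k, n))) atTop (𝓝 (sf u b (k, 0) ^ 2)) := by
    simp only [hpart]
    have := tendsto_const_nhds (x := sf u b (k, 0) ^ 2) (f := atTop (α := ℕ)) |>.sub
      (ht1.mul (ht1.comp (tendsto_add_atTop_nat 1)))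
    simpa using this
  have ht3 := (hsum.hasSum.tendsto_sum_nat).comp (tendsto_add_atTop_nat 1)
  have := tendsto_nhds_unique ht3 ht2
  rw [← this]
  exact hsum.hasSum

lemma summable_trace (hs : Summable (fun k => |om u b k|))
    (h : ∀ p ∈ MM T V L P Xi, 0 ≤ (fn b β - p.2) ((u, t) - p.1)) :
    Summable (fun k => |sf u b (k, 0)|) := by
  have h1 := summable_abs (zf u b - b)
  have h2 : Summable (fun k : ℕ => ∑' n : ℕ, |(zf u b - b) (e (k, n))|) := h1.prod
  refine Summable.of_nonneg_of_le (fun _ => abs_nonneg _) (fun k => ?_) h2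
  have h3 : Summable (fun n : ℕ => |(zf u b - b) (e (k, n))|) := h1.prod_factor k
  have hpart : ∀ N, ∑ n ∈ Finset.range N, (zf u b - b) (e (k, n))
      = sf u b (k, 0) - sf u b (k, N) := by
    intro N
    induction N with
    | zero => simp
    | succ N ih =>
      rw [Finset.sum_range_succ, ih, ContinuousLinearMap.sub_apply, ← sf_sub hs h]
      ring
  have ht1 := tendsto_slice _ (tendsto_sf hs h) k
  have ht2 : Tendsto (fun N => ∑ n ∈ Finset.range N, (zf u b - b) (e (k, n))) atTop
      (𝓝 (sf u b (k, 0))) := by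
    simp only [hpart]
    simpa using tendsto_const_nhds (x := sf u b (k, 0)) (f := atTop (α := ℕ)) |>.sub ht1
  have h4 : ∑' n, (zf u b - b) (e (k, n)) = sf u b (k, 0) :=
    tendsto_nhds_unique h3.of_abs.hasSum.tendsto_sum_nat ht2
  rw [← h4]
  exact (norm_tsum_le_tsum_norm (f := fun n => (zf u b - b) (e (k, n))) h3)

/-- The main structural statement: at the levels `|t| < 1` every related element lies in a closed
set. -/
theorem related_closed (ht : -1 < t) (ht' : t < 1)
    (h : ∀ p ∈ MM T V L P Xi, 0 ≤ (fn b β - p.2) ((u, t) - p.1)) :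
    ⟪pv, T u⟫ + (1 + t) / 2 * ⟪r, T u⟫ = 0 := by
  have hs := summable_om ht h
  have hx := hasSum_x hs h
  -- the trace
  let m : H := ⟨fun k => sf u b (k, 0), by
    refine memℓp_gen ?_
    have := hx.summable
    refine this.congr (fun k => ?_)
    simp⟩
  have hmk : ∀ k, (m : ℕ → ℝ) k = sf u b (k, 0) := fun k => rfl
  have hm : ‖m‖ ^ 2 ≤ zf u b u - b u := by
    rw [← real_inner_self_eq_norm_sq, lp.inner_eq_tsum]
    have h1 : (fun k => ⟪(m : ℕ → ℝ) k, (m : ℕ → ℝ) k⟫) = fun k => sf u b (k, 0) ^ 2 := by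
      funext k
      rw [hmk]
      simp [sq]
    rw [h1, hx.tsum_eq]
    simp
  have hz : ∀ s, L s u + (zf u b (V s) - b (V s)) = 2 * ⟪P s, m⟫ := by
    intro s
    induction s using Finsupp.induction_linear with
    | zero => simp
    | add f f' hf hf' =>
      simp only [map_add, ContinuousLinearMap.add_apply, inner_add_left] at *
      linarith
    | single i c =>
      obtain ⟨k, n⟩ := i
      rw [L_single, V_single, P_single, map_smul, map_smul, inner_smul_left,
        ContinuousLinearMap.smul_apply]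
      rcases n with _ | n
      · rw [l_zero, g_zero, p0_zero, inner_ep, hmk, coord_apply, ← sf_add h k 0]
        have := sf_sub hs h k 0
        simp only [smul_eq_mul, conj_trivial]
        linear_combination (-c) * this
      · rw [l_succ, g_succ, p0_succ, inner_zero_left, ContinuousLinearMap.sub_apply, coord_apply,
          coord_apply, ← sf_add h k n, ← sf_add h k (n + 1), map_add, map_add]
        have h1 := sf_sub hs h k n
        have h2 := sf_sub hs h k (n + 1)
        simp only [smul_eq_mul, conj_trivial]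
        linear_combination (-c) * h1 + (-c) * h2
  -- solve for a'
  set la : ℝ := (1 + t) / 2 with hla
  set lb : ℝ := (1 - t) / 2 with hlb
  have hla0 : 0 < la := by rw [hla]; linarith
  have hlb0 : 0 < lb := by rw [hlb]; linarith
  set hp : ℝ := ⟪pv, T u⟫ with hhp
  set hr : ℝ := ⟪r, T u⟫ with hhr
  set R : ℝ := ⟪r, r⟫ with hR
  have hR0 : 0 ≤ R := real_inner_self_nonneg
  have hden : 1 + la ^ 2 * R ≠ 0 := by positivity
  set α : ℝ := (la * hr - la ^ 2 * R * hp) / (1 + la ^ 2 * R) with hα
  set ρ : ℝ := -(la * (hp + α)) with hρ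
  have hα' : α = la * (hr + ρ * R) := by
    have : α * (1 + la ^ 2 * R) = la * hr - la ^ 2 * R * hp := by
      rw [hα, div_mul_cancel₀ _ hden]
    rw [hρ]
    linear_combination this
  set a' : H := T u + α • pv + ρ • r with ha'
  have ha'eq : a' + la • Xi a' = T u := by
    have h1 : ⟪pv, a'⟫ = hp + α := by
      rw [ha', inner_add_right, inner_add_right, inner_smul_right, inner_smul_right, inner_pv_pv,
        inner_pv_r]
      ring
    have h2 : ⟪r, a'⟫ = hr + ρ * R := by
      rw [ha', inner_add_right, inner_add_right, inner_smul_right, inner_smul_right,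
        real_inner_comm pv r, inner_pv_r]
      ring
    rw [Xi_apply, h1, h2, ha', smul_sub, smul_smul, smul_smul, ← hα', hρ, neg_smul]
    abel
  have hkey := key hL hXi dneg dpos denseRange_T ht ht' h hz hm a' ha'eq
  -- coordinates
  have hcoord : ∀ k : ℕ, lb * ρ * (k : ℝ)⁻¹
      = la * (tau k * u (k, 0)) - sf u b (k, 0) - lb * α * (pv : ℕ → ℝ) k := by
    intro k
    have h1 := congrArg (fun v : H => (v : ℕ → ℝ) k) hkey
    simp only [hmk, ha'] at h1
    rw [lp.coeFn_sub, Pi.sub_apply, lp.coeFn_smul, Pi.smul_apply, lp.coeFn_add, Pi.add_apply,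
      lp.coeFn_add, Pi.add_apply, lp.coeFn_smul, Pi.smul_apply, lp.coeFn_smul, Pi.smul_apply,
      T_apply, r_apply, smul_eq_mul, smul_eq_mul, smul_eq_mul, ← hlb] at h1
    have h2 : la + lb = 1 := by rw [hla, hlb]; ring
    have h3 : tau k * u (k, 0) = la * (tau k * u (k, 0)) + lb * (tau k * u (k, 0)) := by
      rw [← add_mul, h2, one_mul]
    linarith
  have hsum : Summable (fun k : ℕ => lb * ρ * (k : ℝ)⁻¹) := by
    have h1 : Summable (fun k : ℕ => tau k * u (k, 0)) := by
      refine Summable.of_norm_bounded (summable_tau.mul_right ‖u‖) (fun k => ?_)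
      rw [Real.norm_eq_abs, abs_mul, abs_of_pos (tau_pos k)]
      exact mul_le_mul_of_nonneg_left (abs_apply_le _ _) (tau_pos k).le
    have h2 : Summable (fun k : ℕ => (pv : ℕ → ℝ) k) := by
      refine summable_of_ne_finset_zero (s := {0}) (fun k hk => ?_)
      rw [pv, ep_apply]
      simp only [Finset.mem_singleton] at hk
      simp [hk]
    have h3 := ((h1.mul_left la).sub (summable_trace hs h).of_abs).sub (h2.mul_left (lb * α))
    exact h3.congr (fun k => (hcoord k).symm)
  have hρ0 : ρ = 0 := by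
    by_contra hne
    have h1 : Summable (fun k : ℕ => (k : ℝ)⁻¹) := by
      have := hsum.mul_left (lb * ρ)⁻¹
      refine this.congr (fun k => ?_)
      rw [← mul_assoc, inv_mul_cancel₀ (mul_ne_zero hlb0.ne' hne), one_mul]
    exact Real.not_summable_natCast_inv h1
  rw [hρ0] at hα' hρ
  have h1 : hp + α = 0 := by
    have : la * (hp + α) = 0 := by linarith
    exact (mul_eq_zero.1 this).resolve_left hla0.ne'
  rw [zero_mul, add_zero] at hα'
  linarith

end

end Pool.Agent.Helper15_MM
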